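import Mathlib
import Pool.Agent.TH703.Cone.Stm
import Pool.Agent.TH703.Cone.Div

set_option autoImplicit false

/-!
Perimeter of the cylinders.
-/

namespace Pool.Agent.Q296.CN

open MeasureTheory Set Metric Filter Topology
open scoped ENNReal RealInnerProductSpace
open Pool.Agent.TH703.Cone Pool.Agent.TH703.Cone.Div

/-- the profile of the gradient -/
noncomputable def qq (r d s : ℝ) : ℝ := deriv Real.smoothTransition ((r ^ 2 - s ^ 2) / d) * (2 / d)

theorem st_diff (x : ℝ) : HasDerivAt Real.smoothTransition (deriv Real.smoothTransition x) x :=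
  ((Real.smoothTransition.contDiff (n := 1)).differentiable (by norm_num) x).hasDerivAt

theorem st_deriv_nonneg (x : ℝ) : 0 ≤ deriv Real.smoothTransition x :=
  Real.smoothTransition.monotone.deriv_nonneg

theorem st_deriv_cont : Continuous (deriv Real.smoothTransition) :=
  (Real.smoothTransition.contDiff (n := 1)).continuous_deriv (by norm_num)

theorem st_deriv_zero {x : ℝ} (hx : x < 0 ∨ 1 < x) : deriv Real.smoothTransition x = 0 := by
  rcases hx with hx | hx
  · have h : Real.smoothTransition =ᶠ[𝓝 x] fun _ => 0 := by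
      filter_upwards [Iio_mem_nhds hx] with y hy
      exact Real.smoothTransition.zero_of_nonpos (le_of_lt hy)
    rw [h.deriv_eq]; simp
  · have h : Real.smoothTransition =ᶠ[𝓝 x] fun _ => 1 := by
      filter_upwards [Ioi_mem_nhds hx] with y hy
      exact Real.smoothTransition.one_of_one_le (le_of_lt hy)
    rw [h.deriv_eq]; simp

theorem qq_nonneg {r d s : ℝ} (hd : 0 < d) : 0 ≤ qq r d s :=
  mul_nonneg (st_deriv_nonneg _) (by positivity)

theorem qq_cont (r d : ℝ) : Continuous (qq r d) := by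
  unfold qq
  exact (st_deriv_cont.comp (by fun_prop)).mul continuous_const

/-- the total mass of the profile on a ray -/
theorem qq_int {r d : ℝ} (hr : 0 < r) (hd : 0 < d) (hdr : d ≤ r ^ 2) :
    IntegrableOn (fun s => s * qq r d s) (Ioi 0) ∧ ∫ s in Ioi (0 : ℝ), s * qq r d s = 1 := by
  have hder : ∀ s ∈ Ici (0 : ℝ), HasDerivAt (fun s => -Real.smoothTransition ((r ^ 2 - s ^ 2) / d))
      (s * qq r d s) s := by
    intro s _
    have h1 : HasDerivAt (fun s : ℝ => (r ^ 2 - s ^ 2) / d) (-(2 * s) / d) s := by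
      have h2 : HasDerivAt (fun s : ℝ => r ^ 2 - s ^ 2) (-(2 * s)) s := by
        have := (hasDerivAt_pow 2 s).const_sub (r ^ 2)
        convert! this using 1
        norm_num
      exact h2.div_const d
    have h3 := ((st_diff ((r ^ 2 - s ^ 2) / d)).comp s h1).neg
    refine h3.congr_deriv ?_
    unfold qq
    ring
  have hpos : ∀ s ∈ Ioi (0 : ℝ), 0 ≤ s * qq r d s := fun s hs => mul_nonneg (le_of_lt hs) (qq_nonneg hd)
  have hlim : Tendsto (fun s : ℝ => -Real.smoothTransition ((r ^ 2 - s ^ 2) / d)) atTop (𝓝 0) := by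
    refine tendsto_const_nhds.congr' ?_
    filter_upwards [eventually_ge_atTop r] with s hs
    rw [Real.smoothTransition.zero_of_nonpos, neg_zero]
    refine div_nonpos_of_nonpos_of_nonneg ?_ hd.le
    nlinarith
  refine ⟨integrableOn_Ioi_deriv_of_nonneg' hder hpos hlim, ?_⟩
  rw [integral_Ioi_of_hasDerivAt_of_nonneg' hder hpos hlim]
  rw [Real.smoothTransition.one_of_one_le]
  · ring
  · rw [le_div_iff₀ hd]; linarith

/-- the total mass of the profile in the plane -/
theorem qq_plane {r d : ℝ} (hr : 0 < r) (hd : 0 < d) (hdr : d ≤ r ^ 2) :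
    ∫⁻ x : ℂ, ENNReal.ofReal (qq r d ‖x‖) = ENNReal.ofReal (2 * Real.pi) := by
  obtain ⟨hi, hv⟩ := qq_int hr hd hdr
  have hdim : Module.finrank ℝ ℂ = 2 := Complex.finrank_real_complex
  have hint : Integrable (fun x : ℂ => qq r d ‖x‖) := by
    rw [integrable_fun_norm_addHaar volume (f := qq r d)]
    rw [hdim]
    simpa using hi
  rw [← ofReal_integral_eq_lintegral_ofReal hint (Eventually.of_forall fun x => qq_nonneg hd)]
  congr 1
  rw [integral_fun_norm_addHaar volume (qq r d), hdim]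
  have h1 : ∫ y in Ioi (0 : ℝ), y ^ (2 - 1) • qq r d y = 1 := by
    simpa using hv
  rw [h1]
  have h2 : (volume : Measure ℂ).real (ball 0 1) = Real.pi := by
    rw [Measure.real, Complex.volume_ball]
    simp
  rw [h2]
  simp

/-- the cut-off -/
noncomputable def gg (b : ℕ) (r d : ℝ) (z : W b) : ℝ :=
  Real.smoothTransition ((r ^ 2 - ‖z.fst‖ ^ 2) / d)

/-- the first coordinate -/
noncomputable def fstL (b : ℕ) : W b →L[ℝ] ℂ :=
  (ContinuousLinearMap.fst ℝ ℂ (B b)).comp
    (WithLp.prodContinuousLinearEquiv 2 ℝ ℂ (B b)).toContinuousLinearMap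

theorem fstL_apply {b : ℕ} (z : W b) : fstL b z = z.fst := rfl

theorem norm_fst_le {b : ℕ} (z : W b) : ‖z.fst‖ ≤ ‖z‖ := by
  have h := WithLp.prod_norm_sq_eq_of_L2 z
  have h2 : ‖z.fst‖ ^ 2 ≤ ‖z‖ ^ 2 := by rw [h]; nlinarith [sq_nonneg ‖z.snd‖]
  exact (sq_le_sq₀ (norm_nonneg _) (norm_nonneg _)).1 h2

theorem gg_deriv {b : ℕ} (r d : ℝ) (z : W b) :
    HasFDerivAt (gg b r d) ((deriv Real.smoothTransition ((r ^ 2 - ‖z.fst‖ ^ 2) / d) * (-2 / d)) •
      ((innerSL ℝ z.fst).comp (fstL b))) z := by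
  set L : W b →L[ℝ] ℝ := (innerSL ℝ (fstL b z)).comp (fstL b) with hL
  have h1 : HasFDerivAt (fun z : W b => ‖fstL b z‖ ^ 2) ((2 : ℕ) • L) z :=
    (fstL b).hasFDerivAt.norm_sq
  have h2 : HasFDerivAt (fun z : W b => (r ^ 2 - ‖fstL b z‖ ^ 2) * d⁻¹)
      ((d⁻¹ : ℝ) • (-((2 : ℕ) • L))) z := (h1.const_sub (r ^ 2)).mul_const (d⁻¹)
  simp_rw [← div_eq_mul_inv] at h2
  have h3 := (st_diff ((r ^ 2 - ‖fstL b z‖ ^ 2) / d)).comp_hasFDerivAt z h2
  refine h3.congr_fderiv ?_
  ext w
  have e1 : L w = ((innerSL ℝ z.fst).comp (fstL b)) w := rfl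
  rw [two_smul, smul_apply, smul_apply, neg_apply, add_apply, smul_apply, e1, fstL_apply,
    smul_eq_mul, smul_eq_mul, smul_eq_mul]
  ring

theorem gg_contDiff {b : ℕ} (r d : ℝ) : ContDiff ℝ 1 (gg b r d) := by
  unfold gg
  have h1 : ContDiff ℝ 1 (fun z : W b => ‖fstL b z‖ ^ 2) := (fstL b).contDiff.norm_sq ℝ
  have h2 : ContDiff ℝ 1 (fun z : W b => (r ^ 2 - ‖fstL b z‖ ^ 2) / d) :=
    (contDiff_const.sub h1).div_const d
  exact (Real.smoothTransition.contDiff (n := 1)).comp h2

/-- the bound for every cut-off -/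
theorem cut_bound (h7 : S_T7a) {b : ℕ} {ε r d : ℝ} (hb : 1 ≤ b) (hε : 0 < ε) (hr : 0 < r)
    (hr1 : r < 1) (hd : 0 < d) (hdr : d ≤ r ^ 2) {φ : W b → W b} (hφ : Tst (Om b ε) φ) :
    ∫ z, gg b r d z * dv φ z ≤
      vb b ε * (2 * Real.pi * r * (1 - Real.sqrt (r ^ 2 - d)) ^ b) := by
  rw [integral_mul_dv (gg_contDiff r d) hφ.c1 hφ.cs]
  set ρ : ℝ := Real.sqrt (r ^ 2 - d) with hρ
  have hρ0 : 0 ≤ ρ := Real.sqrt_nonneg _
  have hρ2 : ρ ^ 2 = r ^ 2 - d := Real.sq_sqrt (by linarith)
  have hρr : ρ ≤ r := by nlinarith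
  have hvb : 0 ≤ vb b ε := measureReal_nonneg
  -- the pointwise bound
  have hsupp : ∀ s : ℝ, 0 ≤ s → qq r d s ≠ 0 → ρ ≤ s ∧ s ≤ r := by
    intro s hs hne
    by_contra hcon
    apply hne
    unfold qq
    rw [st_deriv_zero, zero_mul]
    rw [not_and_or] at hcon
    rcases hcon with h | h
    · right
      push Not at h
      rw [lt_div_iff₀ hd]
      nlinarith
    · left
      push Not at h
      refine div_neg_of_neg_of_pos ?_ hd
      nlinarith
  have hpt : ∀ z : W b, ENNReal.ofReal ‖fderiv ℝ (gg b r d) z (φ z)‖ ≤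
      (Om b ε).indicator (fun z => ENNReal.ofReal (qq r d ‖z.fst‖ * r)) z := by
    intro z
    by_cases hz : z ∈ Om b ε
    · rw [indicator_of_mem hz]
      apply ENNReal.ofReal_le_ofReal
      rw [(gg_deriv r d z).fderiv, smul_apply, norm_smul,
        ContinuousLinearMap.comp_apply, innerSL_apply_apply, Real.norm_eq_abs, Real.norm_eq_abs,
        abs_mul, abs_of_nonneg (st_deriv_nonneg _), fstL_apply]
      have e1 : |(-2 : ℝ) / d| = 2 / d := by
        rw [abs_div, abs_of_pos hd]; norm_num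
      rw [e1]
      have e2 : |⟪z.fst, (φ z).fst⟫| ≤ ‖z.fst‖ * 1 := by
        refine (abs_real_inner_le_norm _ _).trans ?_
        refine mul_le_mul_of_nonneg_left ?_ (norm_nonneg _)
        exact (norm_fst_le _).trans (hφ.le z)
      have e3 : deriv Real.smoothTransition ((r ^ 2 - ‖z.fst‖ ^ 2) / d) * (2 / d) =
        qq r d ‖z.fst‖ := rfl
      rw [e3]
      rcases eq_or_ne (qq r d ‖z.fst‖) 0 with h0 | h0
      · rw [h0]; simp
      · have e4 := (hsupp _ (norm_nonneg _) h0).2
        refine mul_le_mul_of_nonneg_left (e2.trans ?_) (qq_nonneg hd)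
        linarith
    · have h0 : φ z = 0 := by
        by_contra h
        exact hz (hφ.sub (subset_tsupport φ (Function.mem_support.2 h)))
      rw [h0]
      simp
  have hlint : ∫⁻ z, ENNReal.ofReal ‖fderiv ℝ (gg b r d) z (φ z)‖ ≤
      ENNReal.ofReal (vb b ε * (2 * Real.pi * r * (1 - ρ) ^ b)) := by
    have hm : MeasurableSet (Om b ε) := by
      have : IsOpen (Om b ε) := by
        have hc : Continuous (fun z : W b => ‖z.fst‖ + ‖z.snd‖ / ε) := by fun_prop
        exact isOpen_lt hc continuous_const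
      exact this.measurableSet
    have hq : Measurable (fun x : ℂ => ENNReal.ofReal (qq r d ‖x‖ * r)) := by
      have : Continuous (fun x : ℂ => qq r d ‖x‖ * r) :=
        ((qq_cont r d).comp continuous_norm).mul continuous_const
      exact this.measurable.ennreal_ofReal
    calc ∫⁻ z, ENNReal.ofReal ‖fderiv ℝ (gg b r d) z (φ z)‖
        ≤ ∫⁻ z, (Om b ε).indicator (fun z => ENNReal.ofReal (qq r d ‖z.fst‖ * r)) z :=
          lintegral_mono hpt
      _ = ∫⁻ z in Om b ε, ENNReal.ofReal (qq r d ‖z.fst‖ * r) := lintegral_indicator hm _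
      _ = ENNReal.ofReal (vb b ε) * ∫⁻ x in ball (0 : ℂ) 1, ENNReal.ofReal (qq r d ‖x‖ * r) *
          ENNReal.ofReal ((1 - ‖x‖) ^ b) := h7 b ε hb hε _ hq
      _ ≤ ENNReal.ofReal (vb b ε) * ∫⁻ x : ℂ, ENNReal.ofReal (r * (1 - ρ) ^ b) *
          ENNReal.ofReal (qq r d ‖x‖) := by
          refine mul_le_mul_right ?_ _
          refine (lintegral_mono_ae ?_).trans (setLIntegral_le_lintegral _ _)
          refine (ae_restrict_mem measurableSet_ball).mono fun x hx => ?_
          have hx1 : ‖x‖ < 1 := by simpa using hx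
          rw [← ENNReal.ofReal_mul (mul_nonneg (qq_nonneg hd) hr.le),
            ← ENNReal.ofReal_mul (mul_nonneg hr.le (pow_nonneg (by linarith) _))]
          apply ENNReal.ofReal_le_ofReal
          rcases eq_or_ne (qq r d ‖x‖) 0 with h0 | h0
          · rw [h0]; simp
          · have e4 := (hsupp _ (norm_nonneg _) h0).1
            have e5 : (1 - ‖x‖) ^ b ≤ (1 - ρ) ^ b :=
              pow_le_pow_left₀ (by linarith) (by linarith) b
            calc qq r d ‖x‖ * r * (1 - ‖x‖) ^ b ≤ qq r d ‖x‖ * r * (1 - ρ) ^ b :=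
                  mul_le_mul_of_nonneg_left e5 (mul_nonneg (qq_nonneg hd) hr.le)
              _ = _ := by ring
      _ = ENNReal.ofReal (vb b ε) * (ENNReal.ofReal (r * (1 - ρ) ^ b) *
          ENNReal.ofReal (2 * Real.pi)) := by
          rw [lintegral_const_mul' _ _ ENNReal.ofReal_ne_top, qq_plane hr hd hdr]
      _ = ENNReal.ofReal (vb b ε * (2 * Real.pi * r * (1 - ρ) ^ b)) := by
          rw [← ENNReal.ofReal_mul (mul_nonneg hr.le (pow_nonneg (by linarith) _)),
            ← ENNReal.ofReal_mul hvb]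
          congr 1
          ring
  have h0 : 0 ≤ vb b ε * (2 * Real.pi * r * (1 - ρ) ^ b) := by
    have : 0 ≤ (1 - ρ) ^ b := pow_nonneg (by linarith) _
    positivity
  calc -∫ z, fderiv ℝ (gg b r d) z (φ z) ≤ ‖∫ z, fderiv ℝ (gg b r d) z (φ z)‖ := by
        rw [Real.norm_eq_abs]; exact neg_le_abs _
    _ ≤ (∫⁻ z, ENNReal.ofReal ‖fderiv ℝ (gg b r d) z (φ z)‖).toReal :=
        norm_integral_le_lintegral_norm _
    _ ≤ (ENNReal.ofReal (vb b ε * (2 * Real.pi * r * (1 - ρ) ^ b))).toReal :=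
        ENNReal.toReal_mono ENNReal.ofReal_ne_top hlint
    _ = _ := ENNReal.toReal_ofReal h0

/-- **T3.** perimeter of the cylinders -/
theorem t3 (h7 : S_T7a) : S_T3 := by
  intro b ε r hb hε hr hr1 φ hφ
  -- the sequence of cut-offs
  set dn : ℕ → ℝ := fun n => r ^ 2 / ((n : ℝ) + 1) with hdn
  have hdn0 : ∀ n, 0 < dn n := fun n => by simp only [hdn]; positivity
  have hdnr : ∀ n, dn n ≤ r ^ 2 := fun n => by
    simp only [hdn]
    rw [div_le_iff₀ (by positivity)]
    have : (0 : ℝ) ≤ n := Nat.cast_nonneg n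
    nlinarith [sq_nonneg r]
  have hdnt : Tendsto dn atTop (𝓝 0) := by
    have := tendsto_one_div_add_atTop_nhds_zero_nat (𝕜 := ℝ)
    have h2 := this.const_mul (r ^ 2)
    rw [mul_zero] at h2
    refine h2.congr fun n => ?_
    simp only [hdn]
    ring
  have hb1 : ∀ n, ∫ z, gg b r (dn n) z * dv φ z ≤
      vb b ε * (2 * Real.pi * r * (1 - Real.sqrt (r ^ 2 - dn n)) ^ b) := fun n =>
    cut_bound h7 hb hε hr hr1 (hdn0 n) (hdnr n) hφ
  have hlimR : Tendsto (fun n => vb b ε * (2 * Real.pi * r * (1 - Real.sqrt (r ^ 2 - dn n)) ^ b))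
      atTop (𝓝 (vb b ε * (2 * Real.pi * r * (1 - r) ^ b))) := by
    have hc : Continuous (fun t : ℝ => vb b ε * (2 * Real.pi * r * (1 - Real.sqrt (r ^ 2 - t)) ^ b)) := by
      fun_prop
    have h1 := (hc.tendsto 0).comp hdnt
    have h2 : Real.sqrt (r ^ 2 - 0) = r := by rw [sub_zero]; exact Real.sqrt_sq hr.le
    rw [h2] at h1
    exact h1
  have hint := integrable_dv hφ.c1 hφ.cs
  have hlimL : Tendsto (fun n => ∫ z, gg b r (dn n) z * dv φ z) atTop
      (𝓝 (∫ z, ({z | z ∈ Om b ε ∧ ‖z.fst‖ < r} : Set (W b)).indicator (dv φ) z)) := by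
    refine tendsto_integral_of_dominated_convergence (fun z => ‖dv φ z‖) (fun n => ?_) hint.norm
      (fun n => ?_) ?_
    · exact ((gg_contDiff r (dn n)).continuous.mul (continuous_dv hφ.c1)).aestronglyMeasurable
    · refine Eventually.of_forall fun z => ?_
      unfold gg
      rw [norm_mul, Real.norm_eq_abs, abs_of_nonneg (Real.smoothTransition.nonneg _)]
      exact mul_le_of_le_one_left (norm_nonneg _) (Real.smoothTransition.le_one _)
    · refine Eventually.of_forall fun z => ?_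
      by_cases hz : z ∈ Om b ε
      · by_cases hzr : ‖z.fst‖ < r
        · have hmem : z ∈ ({z | z ∈ Om b ε ∧ ‖z.fst‖ < r} : Set (W b)) := ⟨hz, hzr⟩
          rw [indicator_of_mem hmem]
          refine tendsto_const_nhds.congr' ?_
          have hgap : 0 < r ^ 2 - ‖z.fst‖ ^ 2 := by nlinarith [norm_nonneg z.fst]
          filter_upwards [hdnt.eventually (Iio_mem_nhds hgap)] with n hn
          have hn' : dn n < r ^ 2 - ‖z.fst‖ ^ 2 := hn
          unfold gg
          rw [Real.smoothTransition.one_of_one_le, one_mul]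
          rw [le_div_iff₀ (hdn0 n)]
          linarith
        · have hmem : z ∉ ({z | z ∈ Om b ε ∧ ‖z.fst‖ < r} : Set (W b)) := fun h => hzr h.2
          rw [indicator_of_notMem hmem]
          refine tendsto_const_nhds.congr fun n => ?_
          unfold gg
          push Not at hzr
          rw [Real.smoothTransition.zero_of_nonpos, zero_mul]
          refine div_nonpos_of_nonpos_of_nonneg ?_ (hdn0 n).le
          nlinarith
      · have hmem : z ∉ ({z | z ∈ Om b ε ∧ ‖z.fst‖ < r} : Set (W b)) := fun h => hz h.1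
        rw [indicator_of_notMem hmem]
        have h0 : dv φ z = 0 := dv_eq_zero_of_notMem (fun h => hz (hφ.sub h))
        refine tendsto_const_nhds.congr fun n => ?_
        rw [h0, mul_zero]
  have hmA : MeasurableSet ({z | z ∈ Om b ε ∧ ‖z.fst‖ < r} : Set (W b)) := by
    have h1 : IsOpen (Om b ε) := by
      have hc : Continuous (fun z : W b => ‖z.fst‖ + ‖z.snd‖ / ε) := by fun_prop
      exact isOpen_lt hc continuous_const
    have h2 : IsOpen {z : W b | ‖z.fst‖ < r} := by
      have hc : Continuous (fun z : W b => ‖z.fst‖) := by fun_prop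
      exact isOpen_lt hc continuous_const
    exact (h1.inter h2).measurableSet
  rw [← integral_indicator hmA]
  exact le_of_tendsto_of_tendsto' hlimL hlimR hb1

end Pool.Agent.Q296.CN
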